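import Pool.Agent.Helper55.SCH.Goals

/-!
# Packet SCH-DT: the time and crossing constraints
-/

set_option autoImplicit false

namespace Pool.Agent.Helper13.SCH

open Finset Pool.Agent.Helper55.SCH

theorem S_succ (s : ℕ → ℝ) (k : ℕ) : S s (k + 1) = S s k + s (k + 1) := by
  unfold S
  rw [sum_Icc_succ_top (by omega)]

theorem S_pred (s : ℕ → ℝ) {k : ℕ} (hk : 1 ≤ k) : S s k = S s (k - 1) + s k := by
  obtain ⟨j, rfl⟩ : ∃ j, k = j + 1 := ⟨k - 1, by omega⟩
  rw [S_succ]
  simp

theorem abs_s_le (hH : G_HUB) {c u : ℕ} {lam : ℝ} {s r : ℕ → ℝ} (hC : Crit1 c u lam s r) (x : ℕ) :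
    |s x| ≤ 1 := by
  have hl : 0 < lam := by linarith [hC.lam1]
  by_cases hx : x ∈ Icc 1 c
  · rw [hC.hs x hx, abs_neg]
    exact (hH lam hl).1 _
  · rw [hC.s0 x hx]
    simp

theorem abs_r_le (hH : G_HUB) {c u : ℕ} {lam : ℝ} {s r : ℕ → ℝ} (hC : Crit1 c u lam s r) (x : ℕ) :
    |r x| ≤ 1 := by
  have hl : 0 < lam := by linarith [hC.lam1]
  by_cases hx : x ∈ Icc 1 u
  · rw [hC.hr x hx, abs_neg]
    exact (hH lam hl).1 _
  · rw [hC.r0 x hx]
    simp

theorem w1_step (u : ℕ) (s r : ℕ → ℝ) {v : ℕ} (h1 : 1 ≤ v) (h2 : v + 1 ≤ u) :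
    w1 u s r (v + 1) - w1 u s r v = s v - s (u - v) := by
  unfold w1
  have e1 : S s (u - v) = S s (u - (v + 1)) + s (u - v) := by
    have := S_pred s (k := u - v) (by omega)
    have e : u - v - 1 = u - (v + 1) := by omega
    rw [e] at this
    exact this
  have e2 : S s (v + 1 - 1) = S s (v - 1) + s v := by
    rw [Nat.add_sub_cancel]
    exact S_pred s h1
  rw [e1, e2]
  ring

theorem g1_step (c u : ℕ) (s r : ℕ → ℝ) {x : ℕ} (h2 : x + 1 ≤ c) :
    g1 c u s r (x + 1) - g1 c u s r x = - s (c - x) - 2 * r (x + 1) := by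
  unfold g1
  have e1 : S s (c - x) = S s (c - (x + 1)) + s (c - x) := by
    have := S_pred s (k := c - x) (by omega)
    have e : c - x - 1 = c - (x + 1) := by omega
    rw [e] at this
    exact this
  rw [e1, S_succ r x]
  ring

/-- The sum over the first half, by symmetry. -/
theorem half_sum (u : ℕ) (hu : 1 ≤ u) (y : ℕ → ℝ) (hy : ∀ x, 0 ≤ y x ∧ y x ≤ 1)
    (hs : ∀ v ∈ Icc 1 u, y (u + 1 - v) = y v) :
    2 * ∑ x ∈ Icc 1 (u / 2 + 1), y x ≤ ∑ x ∈ Icc 1 u, y x + 2 := by
  -- reflect
  have hsplit : ∑ x ∈ Icc 1 u, y x = ∑ x ∈ Icc 1 (u / 2), y x + ∑ x ∈ Ioc (u / 2) u, y x := by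
    have hd : Icc 1 u = Icc 1 (u / 2) ∪ Ioc (u / 2) u := by
      ext x
      simp only [mem_union, mem_Icc, mem_Ioc]
      omega
    rw [hd, sum_union]
    rw [disjoint_left]
    intro x hx hx'
    simp only [mem_Icc, mem_Ioc] at hx hx'
    omega
  have hrefl : ∑ x ∈ Icc 1 (u - u / 2), y x = ∑ x ∈ Ioc (u / 2) u, y x := by
    refine sum_bij' (fun x _ => u + 1 - x) (fun x _ => u + 1 - x) ?_ ?_ ?_ ?_ ?_
    · intro x hx
      simp only [mem_Icc, mem_Ioc] at hx ⊢
      omega
    · intro x hx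
      simp only [mem_Icc, mem_Ioc] at hx ⊢
      omega
    · intro x hx
      simp only [mem_Icc] at hx
      omega
    · intro x hx
      simp only [mem_Ioc] at hx
      omega
    · intro x hx
      simp only [mem_Icc] at hx
      exact (hs x (by simp only [mem_Icc]; omega)).symm
  have htop : ∑ x ∈ Icc 1 (u / 2 + 1), y x = ∑ x ∈ Icc 1 (u / 2), y x + y (u / 2 + 1) :=
    sum_Icc_succ_top (by omega) _
  rw [hsplit, ← hrefl, htop]
  have h1 := (hy (u / 2 + 1)).2
  have h0 := (hy (u / 2 + 1)).1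
  rcases Nat.even_or_odd' u with ⟨k, hk | hk⟩
  · have e1 : u / 2 = k := by omega
    have e2 : u - u / 2 = k := by omega
    rw [e2, e1]
    rw [e1] at h1 h0
    linarith
  · have e1 : u / 2 = k := by omega
    have e2 : u - u / 2 = k + 1 := by omega
    have e3 : ∑ x ∈ Icc 1 (k + 1), y x = ∑ x ∈ Icc 1 k, y x + y (k + 1) :=
      sum_Icc_succ_top (by omega) _
    rw [e2, e3, e1]
    rw [e1] at h1 h0
    linarith

/-- The constraint for `w`, with both signs. -/
theorem time_w (hT : G_TIME) (u : ℕ) (hu : 1 ≤ u) (lam : ℝ) (hl : 0 ≤ lam) (a y : ℕ → ℝ)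
    (hy : ∀ x, 0 ≤ y x ∧ y x ≤ 1)
    (hs : ∀ v ∈ Icc 1 u, y (u + 1 - v) = y v)
    (hstep : ∀ x, 1 ≤ x → x + 1 ≤ u → |a (x + 1) - a x| ≤ 2)
    (hone : ∀ x ∈ Icc 1 u, a x ≤ - lam → y x = 1) :
    max (- a 1) 0 + max (- a (u / 2 + 1)) 0 ≤ ∑ x ∈ Icc 1 u, y x + 2 + 2 * lam ∨
      (u : ℝ) ≤ ∑ x ∈ Icc 1 u, y x := by
  rcases hT 1 (u / 2 + 1) 2 lam a y (by omega) (by norm_num) hl
    (fun x h1 h2 => hstep x h1 (by omega))
    (fun x hx => ⟨(hy x).1, (hy x).2, hone x (by
      simp only [mem_Icc] at hx ⊢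
      omega)⟩) with h | h
  · left
    have := half_sum u hu y hy hs
    linarith
  · right
    have h1 : ∀ x ∈ Icc 1 u, y x = 1 := by
      intro x hx
      by_cases hx2 : x ≤ u / 2 + 1
      · exact h x (by simp only [mem_Icc] at hx ⊢; omega)
      · rw [← hs x hx]
        exact h _ (by simp only [mem_Icc] at hx ⊢; omega)
    rw [sum_congr rfl h1]
    simp

theorem sum_al (s : ℕ → ℝ) (k : ℕ) : ∑ x ∈ Icc 1 k, al s x = ((k : ℝ) + S s k) / 2 := by
  unfold al S
  rw [← sum_div, sum_add_distrib]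
  simp

theorem max_shift {a b d : ℝ} (h : |a - b| ≤ d) : max (-a) 0 ≤ max (-b) 0 + d := by
  have h0 : 0 ≤ d := (abs_nonneg _).trans h
  rw [abs_le] at h
  refine max_le ?_ ?_
  · have := le_max_left (-b) 0
    linarith
  · have := le_max_right (-b) 0
    linarith

theorem goalDT : G_DT := by
  intro hH hT hX c u lam s r hC hu p hpu hp2 v hv
  have hl1 : 1 ≤ lam := hC.lam1
  have hl : 0 < lam := by linarith
  have hs1 := abs_s_le hH hC
  have hr1 := abs_r_le hH hC
  have hcl : 0 ≤ (c : ℝ) / lam := by positivity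
  set E : ℝ := 20 * (lam + c / lam) with hE
  have hE1 : 20 * lam ≤ E := by
    rw [hE]
    linarith
  have hPhi := (hH lam hl).2.2.2.2.2.2
  have huc : u ≤ c := hC.hu
  -- densities
  have hals : ∀ x, 0 ≤ al s x ∧ al s x ≤ 1 := by
    intro x
    have := abs_le.1 (hs1 x)
    unfold al
    constructor <;> linarith
  have halr : ∀ x, 0 ≤ al r x ∧ al r x ≤ 1 := by
    intro x
    have := abs_le.1 (hr1 x)
    unfold al
    constructor <;> linarith
  have hals1 : ∀ x ∈ Icc 1 c, g1 c u s r x ≤ - lam → al s x = 1 := by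
    intro x hx hg
    have h1 := hC.hs x hx
    rw [hPhi.1 _ hg] at h1
    unfold al
    rw [h1]
    norm_num
  -- the ends of w
  have hw1 : |S s u + S r u - w1 u s r 1| ≤ 1 := by
    have e1 := S_pred s hu
    have e2 : w1 u s r 1 = S s (u - 1) + S r u := by
      unfold w1
      have : S s (1 - 1) = 0 := by simp [S]
      rw [this]
      ring
    have e : S s u + S r u - w1 u s r 1 = s u := by
      rw [e1, e2]
      ring
    rw [e]
    exact hs1 u
  have hw2 : |2 * S s (u / 2) + S r u - w1 u s r (u / 2 + 1)| ≤ 1 := by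
    rcases Nat.even_or_odd' u with ⟨k, hk | hk⟩
    · have e1 : u / 2 = k := by omega
      have e2 : u - (k + 1) = k - 1 := by omega
      have e3 := S_pred s (k := k) (by omega)
      have e : 2 * S s (u / 2) + S r u - w1 u s r (u / 2 + 1) = s k := by
        unfold w1
        rw [e1, e2, Nat.add_sub_cancel]
        linarith
      rw [e]
      exact hs1 k
    · have e1 : u / 2 = k := by omega
      have e2 : u - (k + 1) = k := by omega
      have e : 2 * S s (u / 2) + S r u - w1 u s r (u / 2 + 1) = 0 := by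
        unfold w1
        rw [e1, e2, Nat.add_sub_cancel]
        ring
      rw [e]
      simp
  have hstepw : ∀ x, 1 ≤ x → x + 1 ≤ u → |w1 u s r (x + 1) - w1 u s r x| ≤ 2 := by
    intro x h1 h2
    rw [w1_step u s r h1 h2]
    have a1 := abs_le.1 (hs1 x)
    have a2 := abs_le.1 (hs1 (u - x))
    rw [abs_le]
    constructor <;> linarith
  have hstepg : ∀ x, x + 1 ≤ c → |g1 c u s r (x + 1) - g1 c u s r x| ≤ 3 := by
    intro x h2
    rw [g1_step c u s r h2]
    have a1 := abs_le.1 (hr1 (x + 1))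
    have a2 := abs_le.1 (hs1 (c - x))
    rw [abs_le]
    constructor <;> linarith
  have hsumr : ∑ x ∈ Icc 1 u, al r x = ((u : ℝ) + S r u) / 2 := sum_al r u
  have hg01 : |g1 c u s r 0 - g1 c u s r 1| ≤ 3 := by
    rw [abs_sub_comm]
    have := hstepg 0 (by omega)
    simpa using this
  subst hv
  refine ⟨?_, ?_, ?_, ?_, ?_⟩
  · -- w, negative
    show max (- (S s u + S r u)) 0 + max (- (2 * S s (u / 2) + S r u)) 0 ≤
      ((u : ℝ) - (- S r u)) / 2 + E ∨ (u : ℝ) ≤ ((u : ℝ) - (- S r u)) / 2 + E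
    rcases time_w hT u hu lam hl.le (w1 u s r) (al r) halr
      (fun v hv => by unfold al; rw [hC.rs v hv]) hstepw
      (fun x hx hg => by
        have h1 := hC.hr x hx
        rw [hPhi.1 _ hg] at h1
        unfold al
        rw [h1]
        norm_num) with h | h
    · left
      have m1 := max_shift hw1
      have m2 := max_shift hw2
      rw [hsumr] at h
      linarith
    · right
      rw [hsumr] at h
      linarith
  · -- w, positive
    show max (S s u + S r u) 0 + max (2 * S s (u / 2) + S r u) 0 ≤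
      ((u : ℝ) + (- S r u)) / 2 + E ∨ (u : ℝ) ≤ ((u : ℝ) + (- S r u)) / 2 + E
    have hsum2 : ∑ x ∈ Icc 1 u, (1 - al r x) = ((u : ℝ) - S r u) / 2 := by
      rw [sum_sub_distrib, hsumr]
      simp
      ring
    rcases time_w hT u hu lam hl.le (fun x => - w1 u s r x) (fun x => 1 - al r x)
      (fun x => ⟨by linarith [(halr x).2], by linarith [(halr x).1]⟩)
      (fun v hv => by
        have : al r (u + 1 - v) = al r v := by unfold al; rw [hC.rs v hv]
        simp only [this])
      (fun x h1 h2 => by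
        have := hstepw x h1 h2
        have e : - w1 u s r (x + 1) - - w1 u s r x = - (w1 u s r (x + 1) - w1 u s r x) := by ring
        rw [e, abs_neg]
        exact this)
      (fun x hx hg => by
        have h1 := hC.hr x hx
        rw [hPhi.2 _ (by linarith)] at h1
        show 1 - al r x = 1
        unfold al
        rw [h1]
        norm_num) with h | h
    · left
      have m1 : max (S s u + S r u) 0 ≤ max (w1 u s r 1) 0 + 1 := by
        have := max_shift (a := -(S s u + S r u)) (b := -(w1 u s r 1)) (d := 1) (by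
          have e : -(S s u + S r u) - -(w1 u s r 1) = -(S s u + S r u - w1 u s r 1) := by ring
          rw [e, abs_neg]
          exact hw1)
        simpa using this
      have m2 : max (2 * S s (u / 2) + S r u) 0 ≤ max (w1 u s r (u / 2 + 1)) 0 + 1 := by
        have := max_shift (a := -(2 * S s (u / 2) + S r u)) (b := -(w1 u s r (u / 2 + 1)))
          (d := 1) (by
          have e : -(2 * S s (u / 2) + S r u) - -(w1 u s r (u / 2 + 1)) =
            -(2 * S s (u / 2) + S r u - w1 u s r (u / 2 + 1)) := by ring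
          rw [e, abs_neg]
          exact hw2)
        simpa only [neg_neg] using this
      simp only [neg_neg] at h
      rw [hsum2] at h
      linarith
    · right
      rw [hsum2] at h
      linarith
  · -- g on (0, c - p]
    show max (- g1 c u s r 0) 0 + max (- g1 c u s r (c - p)) 0 ≤
      3 * ∑ x ∈ Icc 1 (c - p), al s x + E ∨ (c : ℝ) - p ≤ ∑ x ∈ Icc 1 (c - p), al s x + E
    rcases hT 1 (c - p) 3 lam (g1 c u s r) (al s) (by omega) (by norm_num) hl.le
      (fun x h1 h2 => hstepg x (by omega))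
      (fun x hx => ⟨(hals x).1, (hals x).2, hals1 x (by
        simp only [mem_Icc] at hx ⊢
        omega)⟩) with h | h
    · left
      have m1 := max_shift hg01
      linarith
    · right
      rw [sum_congr rfl h]
      have hcp : ((c - p : ℕ) : ℝ) = (c : ℝ) - p := Nat.cast_sub (by omega)
      simp only [sum_const, Nat.card_Icc, Nat.add_sub_cancel, nsmul_eq_mul, mul_one]
      rw [hcp]
      linarith
  · -- g on (0, u / 2]
    show max (- g1 c u s r 0) 0 ≤ 3 * ∑ x ∈ Icc 1 (u / 2), al s x + E ∨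
      (u : ℝ) / 2 ≤ ∑ x ∈ Icc 1 (u / 2), al s x + E
    by_cases hu2 : 1 ≤ u / 2
    · rcases hT 1 (u / 2) 3 lam (g1 c u s r) (al s) hu2 (by norm_num) hl.le
        (fun x h1 h2 => hstepg x (by omega))
        (fun x hx => ⟨(hals x).1, (hals x).2, hals1 x (by
          simp only [mem_Icc] at hx ⊢
          omega)⟩) with h | h
      · left
        have m1 := max_shift hg01
        have m2 := le_max_right (- g1 c u s r (u / 2)) 0
        linarith
      · right
        rw [sum_congr rfl h]
        have hcp : (u : ℝ) ≤ 2 * ((u / 2 : ℕ) : ℝ) + 1 := by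
          have : u ≤ 2 * (u / 2) + 1 := by omega
          exact_mod_cast this
        simp only [sum_const, Nat.card_Icc, Nat.add_sub_cancel, nsmul_eq_mul, mul_one]
        linarith
    · right
      have hu1 : u = 1 := by omega
      have h0 : 0 ≤ ∑ x ∈ Icc 1 (u / 2), al s x := sum_nonneg fun x _ => (hals x).1
      have h1 : (u : ℝ) = 1 := by exact_mod_cast hu1
      rw [h1]
      linarith
  · -- crossing
    show - S s c ≤ ∑ x ∈ Icc 1 p, al s x * al s (c + 1 - x) + E ∨
      (p : ℝ) ≤ ∑ x ∈ Ioc (c - p) c, al s x + E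
    rcases hX c u lam s r hC p hpu with h | h
    · left
      linarith
    · right
      linarith

end Pool.Agent.Helper13.SCH
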